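import Pool.Agent.Helper405.AreaA
import Pool.Agent.Helper859.SP.T1
import Pool.Agent.Helper859.SP.T2
import Pool.Agent.Helper859.SP.T3
import Pool.Agent.Helper859.SP.T4
import Pool.Agent.Helper859.SP.T5
import Pool.Agent.Helper859.SP.T6
import Pool.Agent.Helper859.SP.T7
import Pool.Agent.Helper859.SP.T8
import Pool.Agent.Helper859.SP.T9
import Pool.Agent.Helper859.SP.T10
import Pool.Agent.Helper859.SP.T11
import Pool.Agent.Helper859.SP.T13
import Pool.Agent.Helper859.SP.T14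
import Pool.Agent.Helper859.SP.T15
import Pool.Agent.Helper859.SP.V1
import Pool.Agent.Helper859.SP.V2
import Pool.Agent.Helper859.SP.V3
import Pool.Agent.Helper859.SP.V4
import Pool.Agent.Helper859.SP.V5
import Pool.Agent.Helper859.SP.W1
import Pool.Agent.Helper859.SP.W2
import Pool.Agent.Helper859.SP.W3
import Pool.Agent.Helper859.SP.X1
import Pool.Agent.Helper859.SP.Y1
import Pool.Agent.Helper859.SP.Y3
import Pool.Agent.Helper859.SP.Y4
import Pool.Agent.Helper859.SP.Y5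
import Pool.Agent.Helper859.SP.Y6
import Pool.Agent.Helper859.SP.Y7
import Pool.Agent.Helper859.SP.Y8

set_option linter.all false
open Complex MeasureTheory Set Filter Topology Metric

namespace Pool.Agent.Results.MP_3df8df_an.RealCoefficients
open Pool.Agent.Helper859.SP

/-- Catalan's constant `1 - 1/9 + 1/25 - 1/49 + ...` -/
noncomputable def catalanG : ℝ := ∑' k : ℕ, (-1 : ℝ) ^ k / (2 * k + 1) ^ 2

/-- the set of `|a_n(f)|` over the functions `f` in `S'` all of whose Taylor coefficients are real -/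
def realValues (n : ℕ) : Set ℝ :=
  {x | ∃ f : ℂ → ℂ, InS' f ∧ (∀ k, (coeff k f).im = 0) ∧ x = ‖coeff n f‖}

theorem hne : ∀ g : ℂ → ℂ, DifferentiableOn ℂ g (ball (0:ℂ) 1) → InjOn g (ball (0:ℂ) 1) → deriv g 0 ≠ 0 :=
  fun g hg hi => T15.deriv_ne g hg hi

theorem b1 : ∀ f : ℂ → ℂ, DifferentiableOn ℂ f (ball (0:ℂ) 1) → InjOn f (ball (0:ℂ) 1) → f 0 = 0 → deriv f 0 = 1 →
    ‖coeff 2 f ^ 2 - coeff 3 f‖ ≤ 1 := by
  intro f hf hi h0 h1
  refine W1.b1_bound ?_ f hf hi h0 h1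
  intro h V P m a r hd hinj hp hV hP hF ha hr0 hr1
  exact Pool.Agent.Helper405.Area.area (h := h) (V := V) (P := P) (m := m) (a := a) (r := r)
    hd hinj hp hV hP hF ha hr0 hr1

theorem Ti2_re_one : (Ti2 1).re = catalanG := by
  rw [Y8.Ti2_one, ofReal_re]
  rfl

theorem sharp : ∃ F : ℂ → ℂ, InS' F ∧ (∀ z ∈ ball (0:ℂ) 1, F (starRingEnd ℂ z) = starRingEnd ℂ (F z)) ∧
      deriv (deriv F) 0 = 3 + 2 / (Real.pi : ℂ) ∧ (∀ z ∈ ball (0:ℂ) 1, deriv F z = V5.Gf z) := by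
  refine V5.sharp_fun T2.Ti2_hasDeriv T2.Ti2_hasDeriv0 T1.Ti2_zero T1.Ti2_conj
    (V2.P_pos T4.arctan_im_nonneg T4.arctan_re_pos T4.arctan_re_neg) V3.inj_crit ?_
  intro z hz
  exact V4.H_im_bd T1.Ti2_conj V1.arg_bds
    (T6.Ti2_im_bd T1.Ti2_cont T2.Ti2_hasDeriv T1.Ti2_zero T4.arctan_im_nonneg) T3.Ti2_im1 T3.Ti2_im2 z hz

theorem anti : AntitoneOn (fun t : ℝ => (Ti2 (exp (t * I))).re) (Icc 0 Real.pi) := T5.Ti2_re_anti T1.Ti2_cont T2.Ti2_hasDeriv T4.arctan_im_nonneg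

theorem realc (f : ℂ → ℂ) (hf : InS' f) (hr : ∀ n, (coeff n f).im = 0) :
    ‖coeff 2 f‖ ≤ 3 / 2 + 1 / Real.pi ∧
    (∀ n : ℕ, 2 ≤ n → ‖coeff n f‖ ≤ 2 * ‖coeff 2 f‖ * ((n - 1) / n)) ∧
    ∀ n : ℕ, 2 ≤ n → ‖coeff n f‖ ≤ (2 * Real.exp (2 / Real.pi * (Ti2 1).re) * (n - 1) + 2) / n := by
  refine X1.real_case T9.symm_of_real T9.symm_deriv T8.typ_real hne ?_ T14.rogosinski ?_ f hf hr
  · intro f hf h1 hs hs' hu hv r hr0 hr1
    exact T13.main_r T1.Ti2_cont T1.Ti2_conj anti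
      (fun t h0 h1 => T10.bd_right t h0 h1 (T3.Ti2_im1 t h0 h1))
      (fun t h0 h1 => T10.bd_left t h0 h1 (T3.Ti2_im2 t h0 h1))
      T7.mono_int
      (T11.cauchy_id T1.Ti2_cont T2.Ti2_hasDeriv T2.Ti2_hasDeriv0 T1.Ti2_zero)
      f hf h1 hs hs' hu hv r hr0 hr1
  · intro f hf hi h1 hs hs' hu hv n hn
    refine Y5.coef_bd anti T1.Ti2_cont f hf h1 hs' hv ?_ ?_ n hn
    · intro r hr0 hr1
      exact Y3.right_bd T1.Ti2_cont T1.Ti2_conj anti
        (fun t h0 h1 => Y1.bd2_right t h0 h1 (T3.Ti2_im1 t h0 h1))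
        (fun t h0 h1 => Y1.bd2_left t h0 h1 (T3.Ti2_im2 t h0 h1))
        T7.mono_int
        (Y1.cauchy_id2 T1.Ti2_cont T2.Ti2_hasDeriv T2.Ti2_hasDeriv0 T1.Ti2_zero)
        f hf h1 hs hs' hu r hr0 hr1
    · intro r hr0 hr1
      exact Y4.left_bd hne f hf hi h1 hs' r hr0 hr1

theorem coeff_two (f : ℂ → ℂ) : coeff 2 f = deriv (deriv f) 0 / 2 := by
  have : iteratedDeriv 2 f = deriv (deriv f) := by
    rw [show (2:ℕ) = 1 + 1 from rfl, iteratedDeriv_succ', iteratedDeriv_one]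
  unfold coeff
  rw [this]
  norm_num [Nat.factorial]

theorem result :
    -- (A) all of `S'`
    (∀ f : ℂ → ℂ, InS' f → ‖coeff 2 f‖ ≤ (2 + Real.sqrt 13) / 3 ∧ ‖coeff 3 f‖ ≤ 4 * (2 + Real.sqrt 13) / 9) ∧
    -- (B) real coefficients: the sharp second coefficient
    IsGreatest (realValues 2) (3 / 2 + 1 / Real.pi) ∧
    -- (C) real coefficients: explicit bounds for every coefficient
    (∀ n : ℕ, 2 ≤ n → ∀ x ∈ realValues n, x ≤ (3 + 2 / Real.pi) * ((n - 1) / n) ∧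
      x ≤ (2 * Real.exp (2 * catalanG / Real.pi) * (n - 1) + 2) / n) ∧
    -- (D) real coefficients: the limit of the largest coefficients
    Tendsto (fun n : ℕ => sSup (realValues n)) atTop (𝓝 (2 * Real.exp (2 * catalanG / Real.pi))) ∧
    -- (E) one function is extremal in (B) and (D)
    (∃ F : ℂ → ℂ, InS' F ∧ (∀ k, (coeff k F).im = 0) ∧ coeff 2 F = 3 / 2 + 1 / (Real.pi : ℂ) ∧
      Tendsto (fun n : ℕ => ‖coeff n F‖) atTop (𝓝 (2 * Real.exp (2 * catalanG / Real.pi)))) := by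
  have hpi := Real.pi_pos
  have hG : 2 / Real.pi * (Ti2 1).re = 2 * catalanG / Real.pi := by
    rw [Ti2_re_one]; ring
  have hC : ∀ n : ℕ, 2 ≤ n → ∀ x ∈ realValues n, x ≤ (3 + 2 / Real.pi) * ((n - 1) / n) ∧
      x ≤ (2 * Real.exp (2 * catalanG / Real.pi) * (n - 1) + 2) / n := by
    rintro n hn x ⟨f, hf, hr, rfl⟩
    obtain ⟨h1, h2, h3⟩ := realc f hf hr
    refine ⟨(h2 n hn).trans ?_, ?_⟩
    · have hn' : (2:ℝ) ≤ n := by exact_mod_cast hn
      have : (0:ℝ) ≤ ((n:ℝ) - 1) / n := div_nonneg (by linarith) (by linarith)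
      apply mul_le_mul_of_nonneg_right _ this
      have : (3 + 2 / Real.pi) = 2 * (3 / 2 + 1 / Real.pi) := by ring
      linarith
    · have := h3 n hn
      rwa [hG] at this
  obtain ⟨F, hF, hsym, hF2, hFd⟩ := sharp
  have hreal : ∀ k, (coeff k F).im = 0 := T9.real_of_symm F hF.diff hsym
  have hcF : coeff 2 F = 3 / 2 + 1 / (Real.pi : ℂ) := by
    rw [coeff_two, hF2]; ring
  have hlimC : Tendsto (fun n : ℕ => coeff n F) atTop (𝓝 (2 * exp ((2 / (Real.pi : ℂ)) * Ti2 1))) :=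
    Y7.coef_lim Y6.exp_coeffs F hF.diff (fun z hz => hFd z hz)
  have hval : (2 * exp ((2 / (Real.pi : ℂ)) * Ti2 1)) = ((2 * Real.exp (2 * catalanG / Real.pi) : ℝ) : ℂ) := by
    have h1 : Ti2 1 = ((catalanG : ℝ) : ℂ) := Y8.Ti2_one
    rw [h1]
    push_cast
    congr 2
    ring
  have hlim : Tendsto (fun n : ℕ => ‖coeff n F‖) atTop (𝓝 (2 * Real.exp (2 * catalanG / Real.pi))) := by
    have := hlimC.norm
    rw [hval, norm_real, Real.norm_eq_abs, abs_of_pos (by positivity)] at this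
    exact this
  have hmem : ∀ n, ‖coeff n F‖ ∈ realValues n := fun n => ⟨F, hF, hreal, rfl⟩
  refine ⟨?_, ⟨?_, ?_⟩, hC, ?_, ⟨F, hF, hreal, hcF, hlim⟩⟩
  · intro f hf
    obtain ⟨h1, h2⟩ := W3.gen_bound b1 (W2.bieberbach b1) hne f hf
    exact ⟨h1, by linarith⟩
  · refine ⟨F, hF, hreal, ?_⟩
    rw [hcF]
    have : (3 / 2 + 1 / (Real.pi : ℂ)) = ((3 / 2 + 1 / Real.pi : ℝ) : ℂ) := by push_cast; ring
    rw [this, norm_real, Real.norm_eq_abs, abs_of_pos (by positivity)]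
  · rintro x ⟨f, hf, hr, rfl⟩
    exact (realc f hf hr).1
  · have hb : ∀ n : ℕ, 2 ≤ n → ‖coeff n F‖ ≤ sSup (realValues n) ∧
        sSup (realValues n) ≤ (2 * Real.exp (2 * catalanG / Real.pi) * (n - 1) + 2) / n := by
      intro n hn
      refine ⟨le_csSup ⟨_, fun x hx => (hC n hn x hx).2⟩ (hmem n), csSup_le ⟨_, hmem n⟩ fun x hx => (hC n hn x hx).2⟩
    have hup : Tendsto (fun n : ℕ => (2 * Real.exp (2 * catalanG / Real.pi) * ((n:ℝ) - 1) + 2) / n) atTop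
        (𝓝 (2 * Real.exp (2 * catalanG / Real.pi))) := by
      set L : ℝ := 2 * Real.exp (2 * catalanG / Real.pi)
      have h1 : Tendsto (fun n : ℕ => L + (2 - L) * (1 / (n:ℝ))) atTop (𝓝 (L + (2 - L) * 0)) :=
        tendsto_const_nhds.add (tendsto_one_div_atTop_nhds_zero_nat.const_mul (2 - L))
      rw [mul_zero, add_zero] at h1
      refine h1.congr' ?_
      filter_upwards [eventually_ge_atTop 1] with n hn
      have : (n:ℝ) ≠ 0 := by exact_mod_cast (by omega : n ≠ 0)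
      field_simp
      ring
    refine tendsto_of_tendsto_of_tendsto_of_le_of_le' hlim hup ?_ ?_
    · filter_upwards [eventually_ge_atTop 2] with n hn using (hb n hn).1
    · filter_upwards [eventually_ge_atTop 2] with n hn using (hb n hn).2

end Pool.Agent.Results.MP_3df8df_an.RealCoefficients
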